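import Mathlib
set_option autoImplicit false

/-! One variable: functions whose superlevel sets are unions of few intervals. -/

namespace Pool.Agent.V1178.LI

open MeasureTheory Set
open scoped ENNReal NNReal

/-- All superlevel sets of `φ` are unions of at most `N` intervals. -/
def Lvl (N : ℕ) (φ : ℝ → ℝ≥0) : Prop :=
  ∀ s : ℝ≥0, ∃ I : Fin N → Set ℝ, (∀ i, (I i).OrdConnected) ∧ {v | s < φ v} = ⋃ i, I i

lemma vol_small {A : Set ℝ} {h : ℝ} (H : ∀ x ∈ A, ∀ y ∈ A, x ≤ y → y - x ≤ h) :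
    volume A ≤ ENNReal.ofReal h := by
  refine (Real.volume_le_diam A).trans (Metric.ediam_le fun x hx y hy => ?_)
  rw [edist_dist, Real.dist_eq]
  apply ENNReal.ofReal_le_ofReal
  rcases le_total x y with hxy | hxy
  · rw [abs_sub_comm, abs_of_nonneg (by linarith)]
    exact H x hx y hy hxy
  · rw [abs_of_nonneg (by linarith)]
    exact H y hy x hx hxy

lemma vol_in {I : Set ℝ} (hI : I.OrdConnected) {h : ℝ} (hh : 0 ≤ h) :
    volume {v | v + h ∈ I ∧ v ∉ I} ≤ ENNReal.ofReal h := by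
  apply vol_small
  rintro x ⟨hx, hx'⟩ y ⟨hy, hy'⟩ hxy
  by_contra hcon
  push Not at hcon
  exact hy' (hI.out hx hy ⟨by linarith, by linarith⟩)

lemma vol_out {I : Set ℝ} (hI : I.OrdConnected) {h : ℝ} (hh : 0 ≤ h) :
    volume {v | v ∈ I ∧ v + h ∉ I} ≤ ENNReal.ofReal h := by
  apply vol_small
  rintro x ⟨hx, hx'⟩ y ⟨hy, hy'⟩ hxy
  by_contra hcon
  push Not at hcon
  exact hx' (hI.out hx hy ⟨by linarith, by linarith⟩)

lemma vol_symm {N : ℕ} {I : Fin N → Set ℝ} (hI : ∀ i, (I i).OrdConnected) {h : ℝ} (hh : 0 ≤ h) :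
    volume {v | ¬ (v + h ∈ ⋃ i, I i ↔ v ∈ ⋃ i, I i)} ≤ ENNReal.ofReal (2 * N * h) := by
  have h1 : {v | ¬ (v + h ∈ ⋃ i, I i ↔ v ∈ ⋃ i, I i)} ⊆
      ⋃ i, ({v | v + h ∈ I i ∧ v ∉ I i} ∪ {v | v ∈ I i ∧ v + h ∉ I i}) := by
    intro v hv
    simp only [mem_setOf_eq, mem_iUnion] at hv
    by_contra hcon
    simp only [mem_iUnion, mem_union, mem_setOf_eq, not_exists, not_or, not_and, not_not] at hcon
    apply hv
    constructor
    · rintro ⟨i, hi⟩
      exact ⟨i, (hcon i).1 hi⟩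
    · rintro ⟨i, hi⟩
      exact ⟨i, (hcon i).2 hi⟩
  refine (measure_mono h1).trans ((measure_iUnion_le _).trans ?_)
  rw [tsum_fintype]
  calc ∑ i, volume ({v | v + h ∈ I i ∧ v ∉ I i} ∪ {v | v ∈ I i ∧ v + h ∉ I i})
      ≤ ∑ _i : Fin N, (ENNReal.ofReal h + ENNReal.ofReal h) :=
        Finset.sum_le_sum fun i _ => (measure_union_le _ _).trans
          (add_le_add (vol_in (hI i) hh) (vol_out (hI i) hh))
    _ = _ := by
        rw [Finset.sum_const, Finset.card_univ, Fintype.card_fin, ← ENNReal.ofReal_add hh hh,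
          nsmul_eq_mul, ← ENNReal.ofReal_natCast, ← ENNReal.ofReal_mul (by positivity)]
        congr 1
        ring

/-- the difference of the truncations as an integral over the levels -/
lemma layer (a b lam : ℝ≥0) : ENNReal.ofReal |((min a lam : ℝ≥0) : ℝ) - ((min b lam : ℝ≥0) : ℝ)| ≤
    ∫⁻ s in Ioc (0 : ℝ) lam, {s : ℝ | ¬ (s.toNNReal < a ↔ s.toNNReal < b)}.indicator 1 s := by
  -- the set contains the interval between the truncations
  wlog hab : b ≤ a generalizing a b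
  · have h := this b a (le_of_not_ge hab)
    rw [abs_sub_comm]
    refine h.trans (le_of_eq ?_)
    congr 1
    ext s
    congr 1
    ext s
    simp only [mem_setOf_eq]
    tauto
  have hsub : Ioo ((min b lam : ℝ≥0) : ℝ) ((min a lam : ℝ≥0) : ℝ) ⊆
      {s : ℝ | ¬ (s.toNNReal < a ↔ s.toNNReal < b)} ∩ Ioc (0 : ℝ) lam := by
    rintro s ⟨h1, h2⟩
    have hs0 : 0 ≤ s := (NNReal.coe_nonneg _).trans h1.le
    obtain ⟨t, ht⟩ : ∃ t : ℝ≥0, t = s.toNNReal := ⟨_, rfl⟩
    have hst : (t : ℝ) = s := by rw [ht, Real.coe_toNNReal _ hs0]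
    rw [← hst] at h1 h2
    have h1' : min b lam < t := by exact_mod_cast h1
    have h2' : t < min a lam := by exact_mod_cast h2
    have h3 := lt_min_iff.1 h2'
    have h4 : b < t := by
      rcases min_lt_iff.1 h1' with h | h
      · exact h
      · exact absurd (h.trans h3.2) (lt_irrefl _)
    refine ⟨?_, ?_, ?_⟩
    · show ¬ (s.toNNReal < a ↔ s.toNNReal < b)
      rw [← ht]
      intro hiff
      exact absurd (hiff.1 h3.1) (not_lt.2 h4.le)
    · rw [← hst]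
      exact_mod_cast (zero_le.trans_lt h1' : (0 : ℝ≥0) < t)
    · rw [← hst]
      exact_mod_cast h3.2.le
  have hmono : min b lam ≤ min a lam := min_le_min hab le_rfl
  have hmono' : ((min b lam : ℝ≥0) : ℝ) ≤ ((min a lam : ℝ≥0) : ℝ) := by exact_mod_cast hmono
  have hmeas : MeasurableSet {s : ℝ | ¬ (s.toNNReal < a ↔ s.toNNReal < b)} := by
    have e : {s : ℝ | ¬ (s.toNNReal < a ↔ s.toNNReal < b)} =
        ({s : ℝ | s.toNNReal < a} \ {s : ℝ | s.toNNReal < b}) ∪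
        ({s : ℝ | s.toNNReal < b} \ {s : ℝ | s.toNNReal < a}) := by
      ext s
      simp only [mem_setOf_eq, mem_union, mem_diff]
      tauto
    rw [e]
    have m : ∀ c : ℝ≥0, MeasurableSet {s : ℝ | s.toNNReal < c} := fun c =>
      measurableSet_lt measurable_real_toNNReal measurable_const
    exact ((m a).diff (m b)).union ((m b).diff (m a))
  rw [lintegral_indicator_one hmeas, Measure.restrict_apply hmeas, abs_of_nonneg (by linarith)]
  refine le_trans ?_ (measure_mono hsub)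
  rw [Real.volume_Ioo]

/-- **Translations of truncations.** -/
lemma trans_trunc {N : ℕ} {φ : ℝ → ℝ≥0} (hφ : Measurable φ) (hL : Lvl N φ) (lam : ℝ≥0) {h : ℝ}
    (hh : 0 ≤ h) :
    ∫⁻ v, ENNReal.ofReal |((min (φ (v + h)) lam : ℝ≥0) : ℝ) - ((min (φ v) lam : ℝ≥0) : ℝ)| ≤
      ENNReal.ofReal (2 * N * h * lam) := by
  have hm1 : Measurable fun z : ℝ × ℝ => φ (z.1 + h) := hφ.comp (by fun_prop)
  have hm2 : Measurable fun z : ℝ × ℝ => φ z.1 := hφ.comp measurable_fst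
  have hm3 : Measurable fun z : ℝ × ℝ => z.2.toNNReal := measurable_real_toNNReal.comp measurable_snd
  have hS : MeasurableSet {z : ℝ × ℝ | ¬ (z.2.toNNReal < φ (z.1 + h) ↔ z.2.toNNReal < φ z.1)} := by
    have e : {z : ℝ × ℝ | ¬ (z.2.toNNReal < φ (z.1 + h) ↔ z.2.toNNReal < φ z.1)} =
        ({z : ℝ × ℝ | z.2.toNNReal < φ (z.1 + h)} \ {z : ℝ × ℝ | z.2.toNNReal < φ z.1}) ∪
        ({z : ℝ × ℝ | z.2.toNNReal < φ z.1} \ {z : ℝ × ℝ | z.2.toNNReal < φ (z.1 + h)}) := by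
      ext s
      simp only [mem_setOf_eq, mem_union, mem_diff]
      tauto
    rw [e]
    exact ((measurableSet_lt hm3 hm1).diff (measurableSet_lt hm3 hm2)).union
      ((measurableSet_lt hm3 hm2).diff (measurableSet_lt hm3 hm1))
  calc ∫⁻ v, ENNReal.ofReal |((min (φ (v + h)) lam : ℝ≥0) : ℝ) - ((min (φ v) lam : ℝ≥0) : ℝ)|
      ≤ ∫⁻ v, ∫⁻ s in Ioc (0 : ℝ) lam,
        {z : ℝ × ℝ | ¬ (z.2.toNNReal < φ (z.1 + h) ↔ z.2.toNNReal < φ z.1)}.indicator
          (fun _ => (1 : ℝ≥0∞)) (v, s) := lintegral_mono fun v => layer _ _ lam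
    _ = ∫⁻ s in Ioc (0 : ℝ) lam, ∫⁻ v,
        {z : ℝ × ℝ | ¬ (z.2.toNNReal < φ (z.1 + h) ↔ z.2.toNNReal < φ z.1)}.indicator
          (fun _ => (1 : ℝ≥0∞)) (v, s) := by
        apply lintegral_lintegral_swap
        exact (measurable_const.indicator hS).aemeasurable
    _ ≤ ∫⁻ _s in Ioc (0 : ℝ) lam, ENNReal.ofReal (2 * N * h) := by
        apply lintegral_mono
        intro s
        obtain ⟨I, hI, hE⟩ := hL s.toNNReal
        have e : (fun v => {z : ℝ × ℝ | ¬ (z.2.toNNReal < φ (z.1 + h) ↔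
            z.2.toNNReal < φ z.1)}.indicator (fun _ => (1 : ℝ≥0∞)) (v, s)) =
            {v | ¬ (v + h ∈ ⋃ i, I i ↔ v ∈ ⋃ i, I i)}.indicator 1 := by
          ext v
          simp only [indicator, mem_setOf_eq, ← hE, Pi.one_apply]
        beta_reduce
        rw [e]
        have hms : MeasurableSet {v | ¬ (v + h ∈ ⋃ i, I i ↔ v ∈ ⋃ i, I i)} := by
          have h5 : {v | ¬ (v + h ∈ ⋃ i, I i ↔ v ∈ ⋃ i, I i)} = (fun v : ℝ => (v, s)) ⁻¹'
              {z : ℝ × ℝ | ¬ (z.2.toNNReal < φ (z.1 + h) ↔ z.2.toNNReal < φ z.1)} := by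
            ext v
            simp only [mem_setOf_eq, mem_preimage, ← hE]
          rw [h5]
          exact hS.preimage (by fun_prop)
        rw [lintegral_indicator_one hms]
        exact vol_symm hI hh
    _ = _ := by
        rw [setLIntegral_const, Real.volume_Ioc, ← ENNReal.ofReal_mul (by positivity)]
        congr 1
        ring

/-- The interval `[-1/2, 1/2]`. -/
def J : Set ℝ := Icc (-(1 / 2)) (1 / 2)

/-- Half a derivative in `L²`. -/
def HalfD (K : ℝ≥0) (m : ℝ → ℂ) : Prop :=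
  ∀ h ∈ Icc (0 : ℝ) 1, ∫⁻ v in Icc (-(1 / 2) : ℝ) (1 / 2 - h),
    ‖m (v + h) - m v‖ₑ ^ 2 ≤ ENNReal.ofReal (K * h)

lemma split_norm (a b : ℝ) (ha : 0 ≤ a) (hb : 0 ≤ b) (x y : ℂ) (hx : ‖x‖ ≤ 1) (hy : ‖y‖ ≤ 1) :
    ‖(a : ℂ) * x - b * y‖ ≤ |a - b| + min a b * ‖x - y‖ := by
  rcases le_total b a with h | h
  · have e : (a : ℂ) * x - b * y = ((a - b : ℝ) : ℂ) * x + b * (x - y) := by push_cast; ring
    rw [e, min_eq_right h]
    refine (norm_add_le _ _).trans ?_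
    rw [norm_mul, norm_mul, Complex.norm_real, Complex.norm_real, Real.norm_eq_abs,
      Real.norm_of_nonneg hb]
    have : |a - b| * ‖x‖ ≤ |a - b| * 1 := mul_le_mul_of_nonneg_left hx (abs_nonneg _)
    linarith
  · have e : (a : ℂ) * x - b * y = ((a - b : ℝ) : ℂ) * y + a * (x - y) := by push_cast; ring
    rw [e, min_eq_left h]
    refine (norm_add_le _ _).trans ?_
    rw [norm_mul, norm_mul, Complex.norm_real, Complex.norm_real, Real.norm_eq_abs,
      Real.norm_of_nonneg ha]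
    have : |a - b| * ‖y‖ ≤ |a - b| * 1 := mul_le_mul_of_nonneg_left hy (abs_nonneg _)
    linarith

/-- the pointwise inequality -/
lemma point (a b lam : ℝ≥0) (x y : ℂ) (hx : ‖x‖ ≤ 1) (hy : ‖y‖ ≤ 1) :
    ‖(a : ℂ) * x - (b : ℂ) * y‖ ^ 2 ≤
      4 * (lam * |((min a lam : ℝ≥0) : ℝ) - ((min b lam : ℝ≥0) : ℝ)| +
        (min (a : ℝ) (min (b : ℝ) lam)) ^ 2 * ‖x - y‖ ^ 2 +
        ((a - lam : ℝ≥0) : ℝ) ^ 2 + ((b - lam : ℝ≥0) : ℝ) ^ 2) := by
  obtain ⟨a', ha'⟩ : ∃ a', a' = min a lam := ⟨_, rfl⟩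
  obtain ⟨b', hb'⟩ : ∃ b', b' = min b lam := ⟨_, rfl⟩
  obtain ⟨r, hr⟩ : ∃ r, r = a - lam := ⟨_, rfl⟩
  obtain ⟨s, hs⟩ : ∃ s, s = b - lam := ⟨_, rfl⟩
  have ea : a = a' + r := by
    rw [ha', hr]
    rcases le_total a lam with h | h
    · rw [min_eq_left h, tsub_eq_zero_of_le h, add_zero]
    · rw [min_eq_right h, add_tsub_cancel_of_le h]
  have eb : b = b' + s := by
    rw [hb', hs]
    rcases le_total b lam with h | h
    · rw [min_eq_left h, tsub_eq_zero_of_le h, add_zero]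
    · rw [min_eq_right h, add_tsub_cancel_of_le h]
  have hmin : min (a : ℝ) (min (b : ℝ) lam) = min (a' : ℝ) b' := by
    rw [ha', hb']
    push_cast
    rw [min_min_min_comm, min_self, min_assoc]
  have hal : (a' : ℝ) ≤ lam := by rw [ha']; exact_mod_cast min_le_right a lam
  have hbl : (b' : ℝ) ≤ lam := by rw [hb']; exact_mod_cast min_le_right b lam
  rw [← ha', ← hb', ← hr, ← hs, hmin]
  have e : (a : ℂ) * x - (b : ℂ) * y =
      (((a' : ℝ) : ℂ) * x - ((b' : ℝ) : ℂ) * y) + (((r : ℝ) : ℂ) * x - ((s : ℝ) : ℂ) * y) := by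
    rw [ea, eb]
    push_cast
    ring
  have h1 := split_norm a' b' (NNReal.coe_nonneg _) (NNReal.coe_nonneg _) x y hx hy
  have h2 : ‖((r : ℝ) : ℂ) * x - ((s : ℝ) : ℂ) * y‖ ≤ r + s := by
    refine (norm_sub_le _ _).trans ?_
    rw [norm_mul, norm_mul, Complex.norm_real, Complex.norm_real,
      Real.norm_of_nonneg (NNReal.coe_nonneg _), Real.norm_of_nonneg (NNReal.coe_nonneg _)]
    have h3 : (r : ℝ) * ‖x‖ ≤ r * 1 := mul_le_mul_of_nonneg_left hx (NNReal.coe_nonneg _)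
    have h4 : (s : ℝ) * ‖y‖ ≤ s * 1 := mul_le_mul_of_nonneg_left hy (NNReal.coe_nonneg _)
    linarith
  have h3 : ‖(a : ℂ) * x - (b : ℂ) * y‖ ≤
      |(a' : ℝ) - b'| + min (a' : ℝ) b' * ‖x - y‖ + r + s := by
    rw [e]
    refine (norm_add_le _ _).trans ?_
    linarith
  have hd : |(a' : ℝ) - b'| ≤ lam := by
    rw [abs_le]
    constructor
    · have := NNReal.coe_nonneg a'
      linarith
    · have := NNReal.coe_nonneg b'
      linarith
  obtain ⟨A, hA⟩ : ∃ A : ℝ, A = |(a' : ℝ) - b'| := ⟨_, rfl⟩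
  obtain ⟨B, hB⟩ : ∃ B : ℝ, B = min (a' : ℝ) b' * ‖x - y‖ := ⟨_, rfl⟩
  have hA0 : 0 ≤ A := by rw [hA]; exact abs_nonneg _
  have hB2 : (min (a' : ℝ) b') ^ 2 * ‖x - y‖ ^ 2 = B ^ 2 := by rw [hB]; ring
  rw [hB2, ← hA]
  rw [← hA, ← hB] at h3
  rw [← hA] at hd
  have h4 : ‖(a : ℂ) * x - (b : ℂ) * y‖ ^ 2 ≤ (A + B + r + s) ^ 2 :=
    pow_le_pow_left₀ (norm_nonneg _) h3 2
  have h5 : A ^ 2 ≤ lam * A := by
    rw [sq]
    exact mul_le_mul_of_nonneg_right hd hA0
  nlinarith [sq_nonneg (A - B), sq_nonneg (A - r), sq_nonneg (A - s), sq_nonneg (B - r),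
    sq_nonneg (B - s), sq_nonneg ((r : ℝ) - s)]

lemma tail_le {p : ℝ} (hp : 2 ≤ p) {a lam : ℝ≥0} (hl : 0 < lam) :
    ((a - lam : ℝ≥0) : ℝ) ^ 2 ≤ (lam : ℝ) ^ (2 - p) * (a : ℝ) ^ p := by
  rcases le_or_gt a lam with h | h
  · rw [tsub_eq_zero_of_le h]
    have : (0 : ℝ) ≤ (lam : ℝ) ^ (2 - p) * (a : ℝ) ^ p := by positivity
    simpa using this
  · have hl' : (0 : ℝ) < lam := by exact_mod_cast hl
    have ha : (0 : ℝ) < a := hl'.trans (by exact_mod_cast h)
    have h1 : ((a - lam : ℝ≥0) : ℝ) ≤ a := by exact_mod_cast tsub_le_self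
    calc ((a - lam : ℝ≥0) : ℝ) ^ 2 ≤ (a : ℝ) ^ 2 :=
          pow_le_pow_left₀ (NNReal.coe_nonneg _) h1 2
      _ = (a : ℝ) ^ (2 - p) * (a : ℝ) ^ p := by
          rw [← Real.rpow_add ha, ← Real.rpow_natCast]
          congr 1
          push_cast
          ring
      _ ≤ _ := by
          apply mul_le_mul_of_nonneg_right _ (by positivity)
          exact Real.rpow_le_rpow_of_nonpos hl' (by exact_mod_cast h.le) (by linarith)

/-- **Translations**, with a parameter. -/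
lemma trans_lam {N : ℕ} {K : ℝ≥0} {φ : ℝ → ℝ≥0} {m : ℝ → ℂ} (hφ : Measurable φ)
    (hL : Lvl N φ) (hJ : ∀ v ∉ J, φ v = 0) (hm : Measurable m) (hm1 : ∀ v, ‖m v‖ ≤ 1)
    (hH : HalfD K m) {p : ℝ} (hp : 2 ≤ p) {lam : ℝ≥0} (hl : 0 < lam) {h : ℝ}
    (hh : h ∈ Icc (0 : ℝ) 1) :
    ∫⁻ v, ‖(φ (v + h) : ℂ) * m (v + h) - φ v * m v‖ₑ ^ 2 ≤
      ENNReal.ofReal ((8 * N + 4 * K) * h * lam ^ 2) +
        ENNReal.ofReal (8 * (lam : ℝ) ^ (2 - p)) * ∫⁻ v, (φ v : ℝ≥0∞) ^ p := by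
  have hl' : (0 : ℝ) < lam := by exact_mod_cast hl
  have hp0 : 0 ≤ p := by linarith
  have hφh : Measurable fun v => φ (v + h) := hφ.comp (by fun_prop)
  have hmh : Measurable fun v => m (v + h) := hm.comp (by fun_prop)
  -- pointwise
  have hpt : ∀ v, ‖(φ (v + h) : ℂ) * m (v + h) - φ v * m v‖ₑ ^ 2 ≤
      ENNReal.ofReal (4 * lam) * ENNReal.ofReal |((min (φ (v + h)) lam : ℝ≥0) : ℝ) -
        ((min (φ v) lam : ℝ≥0) : ℝ)| +
      (ENNReal.ofReal (4 * lam ^ 2) * (Icc (-(1 / 2) : ℝ) (1 / 2 - h)).indicator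
        (fun v => ‖m (v + h) - m v‖ₑ ^ 2) v +
      (ENNReal.ofReal (4 * (lam : ℝ) ^ (2 - p)) * (φ (v + h) : ℝ≥0∞) ^ p +
        ENNReal.ofReal (4 * (lam : ℝ) ^ (2 - p)) * (φ v : ℝ≥0∞) ^ p)) := by
    intro v
    have h1 := point (φ (v + h)) (φ v) lam (m (v + h)) (m v) (hm1 _) (hm1 _)
    have h2 := tail_le hp (a := φ (v + h)) hl
    have h3 := tail_le hp (a := φ v) hl
    have e1 : ∀ z : ℂ, ‖z‖ₑ ^ 2 = ENNReal.ofReal (‖z‖ ^ 2) := fun z => by
      rw [← ofReal_norm, ENNReal.ofReal_pow (norm_nonneg _)]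
    have e2 : ∀ c : ℝ≥0, (c : ℝ≥0∞) ^ p = ENNReal.ofReal ((c : ℝ) ^ p) := fun c => by
      rw [← ENNReal.ofReal_rpow_of_nonneg (NNReal.coe_nonneg _) hp0, ENNReal.ofReal_coe_nnreal]
    have h4 : (min (φ (v + h) : ℝ) (min (φ v : ℝ) lam)) ^ 2 * ‖m (v + h) - m v‖ ^ 2 ≤
        lam ^ 2 * (Icc (-(1 / 2) : ℝ) (1 / 2 - h)).indicator
          (fun v => ‖m (v + h) - m v‖ ^ 2) v := by
      by_cases hv : v ∈ Icc (-(1 / 2) : ℝ) (1 / 2 - h)
      · rw [indicator_of_mem hv]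
        apply mul_le_mul_of_nonneg_right _ (by positivity)
        apply pow_le_pow_left₀
        · exact le_min (NNReal.coe_nonneg _) (le_min (NNReal.coe_nonneg _) hl'.le)
        · exact (min_le_right _ _).trans (min_le_right _ _)
      · rw [indicator_of_notMem hv]
        have h5 : φ (v + h) = 0 ∨ φ v = 0 := by
          by_cases hv1 : v ∈ J
          · left
            apply hJ
            intro hv2
            exact hv ⟨hv1.1, by linarith [hv2.2]⟩
          · right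
            exact hJ v hv1
        have h6 : min (φ (v + h) : ℝ) (min (φ v : ℝ) lam) = 0 := by
          rcases h5 with h5 | h5
          · rw [h5]
            apply min_eq_left
            exact le_min (NNReal.coe_nonneg _) hl'.le
          · rw [h5]
            have : min ((0 : ℝ≥0) : ℝ) (lam : ℝ) = 0 := min_eq_left hl'.le
            rw [this]
            exact min_eq_right (NNReal.coe_nonneg _)
        rw [h6]
        simp
    have e3 : (Icc (-(1 / 2) : ℝ) (1 / 2 - h)).indicator (fun v => ‖m (v + h) - m v‖ₑ ^ 2) v =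
        ENNReal.ofReal ((Icc (-(1 / 2) : ℝ) (1 / 2 - h)).indicator
          (fun v => ‖m (v + h) - m v‖ ^ 2) v) := by
      by_cases hv : v ∈ Icc (-(1 / 2) : ℝ) (1 / 2 - h)
      · rw [indicator_of_mem hv, indicator_of_mem hv, e1]
      · rw [indicator_of_notMem hv, indicator_of_notMem hv, ENNReal.ofReal_zero]
    have h0 : 0 ≤ (Icc (-(1 / 2) : ℝ) (1 / 2 - h)).indicator
          (fun v => ‖m (v + h) - m v‖ ^ 2) v := indicator_nonneg (fun _ _ => by positivity) _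
    rw [e1, e2, e2, e3, ← ENNReal.ofReal_mul (by positivity), ← ENNReal.ofReal_mul (by positivity),
      ← ENNReal.ofReal_mul (by positivity), ← ENNReal.ofReal_mul (by positivity),
      ← ENNReal.ofReal_add (by positivity) (by positivity),
      ← ENNReal.ofReal_add (by positivity) (by positivity),
      ← ENNReal.ofReal_add (by positivity) (by positivity)]
    apply ENNReal.ofReal_le_ofReal
    nlinarith
  refine (lintegral_mono hpt).trans ?_
  have mA : Measurable fun v => ENNReal.ofReal |((min (φ (v + h)) lam : ℝ≥0) : ℝ) -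
        ((min (φ v) lam : ℝ≥0) : ℝ)| := by fun_prop
  have mB : Measurable ((Icc (-(1 / 2) : ℝ) (1 / 2 - h)).indicator
        (fun v => ‖m (v + h) - m v‖ₑ ^ 2)) :=
    ((hmh.sub hm).enorm.pow_const 2).indicator measurableSet_Icc
  have mC : Measurable fun v => (φ (v + h) : ℝ≥0∞) ^ p := by fun_prop
  have mD : Measurable fun v => (φ v : ℝ≥0∞) ^ p := by fun_prop
  rw [lintegral_add_left (mA.const_mul _), lintegral_add_left (mB.const_mul _),
    lintegral_add_left (mC.const_mul _), lintegral_const_mul _ mA, lintegral_const_mul _ mB,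
    lintegral_const_mul _ mC, lintegral_const_mul _ mD,
    lintegral_add_right_eq_self (fun v => (φ v : ℝ≥0∞) ^ p) h, lintegral_indicator measurableSet_Icc]
  have h1 := trans_trunc hφ hL lam hh.1
  have h2 := hH h hh
  calc _ ≤ ENNReal.ofReal (4 * lam) * ENNReal.ofReal (2 * N * h * lam) +
        (ENNReal.ofReal (4 * lam ^ 2) * ENNReal.ofReal (K * h) +
        (ENNReal.ofReal (4 * (lam : ℝ) ^ (2 - p)) * (∫⁻ v, (φ v : ℝ≥0∞) ^ p) +
        ENNReal.ofReal (4 * (lam : ℝ) ^ (2 - p)) * ∫⁻ v, (φ v : ℝ≥0∞) ^ p)) := by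
        gcongr
    _ = _ := by
        have hh0 := hh.1
        rw [← add_mul, ← ENNReal.ofReal_add (by positivity) (by positivity), ← add_assoc,
          ← ENNReal.ofReal_mul (by positivity), ← ENNReal.ofReal_mul (by positivity),
          ← ENNReal.ofReal_add (by positivity) (by positivity)]
        congr 2
        · ring
        · congr 1
          ring

end Pool.Agent.V1178.LI
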