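import Pool.Agent.V1178.LI.Main
set_option autoImplicit false

/-! Frames and sums. -/

namespace Pool.Agent.V1178.LI

open MeasureTheory Set Complex Filter Topology
open scoped ENNReal NNReal
open Pool.Agent.W771 Pool.Agent.V1157.TD

lemma coe_meas {φ : ℝ × ℝ → ℝ≥0} (h : Measurable φ) : Measurable fun w => (φ w : ℂ) := by
  have h1 : Measurable fun w => ((φ w : ℝ) : ℂ) := by fun_prop
  exact h1

lemma enorm_coe' (a : ℝ≥0) : ‖(a : ℂ)‖ₑ = a := by
  rw [← ofReal_norm]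
  have : ‖((a : ℝ) : ℂ)‖ = a := by
    rw [Complex.norm_real, Real.norm_of_nonneg (NNReal.coe_nonneg _)]
  rw [this, ENNReal.ofReal_coe_nnreal]

/-- one density in a frame -/
theorem frame_bound (p q : ℝ) (hq : 3 < q) (hp : 3 ≤ p) (hpq : q < p * (q - 2)) :
    ∃ C : ℝ≥0, ∀ (θ : ℝ) (N : ℝ → ℕ) (φ : ℝ × ℝ → ℝ≥0) (m : ℝ × ℝ → ℂ), Dens N φ m →
      eLpNorm (ext fun x => (φ (rot θ x) : ℂ) * m (rot θ x)) (ENNReal.ofReal q) volume ≤
        C * wn N p φ ^ (1 / p) := by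
  obtain ⟨C, hC⟩ := EE_bound p q hq hp hpq
  have hq0 : 0 < q := by linarith
  have hp0 : 0 < p := by linarith
  refine ⟨C ^ (1 / q), ?_⟩
  intro θ N φ m hd
  obtain ⟨G, hG⟩ : ∃ G : ℝ × ℝ → ℂ, G = fun w => (φ w : ℂ) * m w := ⟨_, rfl⟩
  have hGm : Measurable G := by
    rw [hG]
    exact (coe_meas hd.mφ).mul hd.mm
  have hmain := hC N φ m hd
  rw [← hG] at hmain
  have hfG : (fun x => (φ (rot θ x) : ℂ) * m (rot θ x)) = fun x => G (rot θ x) := by
    rw [hG]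
  have hGE : Measurable fun z : ℝ × ℝ × ℝ => ‖EE G z.1 z.2.1 z.2.2‖ₑ ^ q :=
    (EE_meas G hGm).enorm.pow_const q
  have h4 : ∫⁻ ξ, ‖ext (fun x => G (rot θ x)) ξ‖ₑ ^ q ≤ C * (wn N p φ) ^ (q / p) := by
    calc ∫⁻ ξ, ‖ext (fun x => G (rot θ x)) ξ‖ₑ ^ q = ∫⁻ ξ : ℝ × ℝ × ℝ,
          (fun x y t => ‖EE G x y t‖ₑ ^ q) (rot θ (ξ.1, ξ.2.1)).1 (rot θ (ξ.1, ξ.2.1)).2 ξ.2.2 := by
          apply lintegral_congr
          intro ξ
          rw [ext_rot]
      _ = ∫⁻ t, ∫⁻ x, ∫⁻ y, ‖EE G x y t‖ₑ ^ q :=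
          lint_rot θ (fun x y t => ‖EE G x y t‖ₑ ^ q) hGE
      _ ≤ _ := hmain
  rw [hfG, eLpNorm_eq_lintegral_rpow_enorm_toReal (by simpa using hq0) ENNReal.ofReal_ne_top,
    ENNReal.toReal_ofReal hq0.le]
  calc (∫⁻ ξ, ‖ext (fun x => G (rot θ x)) ξ‖ₑ ^ q) ^ (1 / q)
      ≤ (C * (wn N p φ) ^ (q / p)) ^ (1 / q) := by gcongr
    _ = _ := by
        rw [ENNReal.mul_rpow_of_nonneg _ _ (by positivity), ← ENNReal.rpow_mul,
          ENNReal.coe_rpow_of_nonneg _ (by positivity)]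
        congr 2
        field_simp

/-- atoms -/
def At (p : ℝ) (A : ℝ≥0∞) (F : ℝ × ℝ → ℂ) : Prop :=
  ∃ (θ : ℝ) (N : ℝ → ℕ) (φ : ℝ × ℝ → ℝ≥0) (m : ℝ × ℝ → ℂ), Dens N φ m ∧
    (∀ x, F x = (φ (rot θ x) : ℂ) * m (rot θ x)) ∧ wn N p φ ^ (1 / p) ≤ A

lemma At.meas {p : ℝ} {A : ℝ≥0∞} {F : ℝ × ℝ → ℂ} (h : At p A F) : Measurable F := by
  obtain ⟨θ, N, φ, m, hd, hF, -⟩ := h
  have e : F = fun x => (fun w => (φ w : ℂ) * m w) (rot θ x) := funext hF
  rw [e]
  exact ((coe_meas hd.mφ).mul hd.mm).comp (rot_cont θ).measurable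

lemma At.l1 {p : ℝ} (hp : 3 ≤ p) {A : ℝ≥0∞} {F : ℝ × ℝ → ℂ} (h : At p A F) :
    ∫⁻ x, ‖F x‖ₑ ≤ A := by
  obtain ⟨θ, N, φ, m, hd, hF, hA⟩ := h
  have hp0 : 0 < p := by linarith
  refine le_trans ?_ hA
  have hm : Measurable fun w => ‖(φ w : ℂ) * m w‖ₑ := ((coe_meas hd.mφ).mul hd.mm).enorm
  have e : ∫⁻ x, ‖F x‖ₑ = ∫⁻ w, ‖(φ w : ℂ) * m w‖ₑ := by
    rw [← (rot_mp θ).lintegral_comp hm]
    apply lintegral_congr
    intro x
    rw [hF x]
  rw [e]
  have hJm : MeasurableSet (LI.J ×ˢ LI.J) := measurableSet_Icc.prod measurableSet_Icc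
  have hvol : (volume : Measure (ℝ × ℝ)) (LI.J ×ˢ LI.J) = 1 := by
    rw [Measure.volume_eq_prod, Measure.prod_prod, LI.J, Real.volume_Icc]
    norm_num
  have hprob : IsProbabilityMeasure ((volume : Measure (ℝ × ℝ)).restrict (LI.J ×ˢ LI.J)) :=
    ⟨by rw [Measure.restrict_apply_univ, hvol]⟩
  have h1 : ∫⁻ w, ‖(φ w : ℂ) * m w‖ₑ ≤ ∫⁻ w in LI.J ×ˢ LI.J, (φ w : ℝ≥0∞) := by
    rw [← lintegral_indicator hJm]
    apply lintegral_mono
    intro w
    by_cases hw : w ∈ LI.J ×ˢ LI.J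
    · rw [indicator_of_mem hw]
      simp only
      rw [enorm_mul, enorm_coe']
      have h2 : ‖m w‖ₑ ≤ 1 := by
        rw [← ofReal_norm]
        exact ENNReal.ofReal_le_one.2 (hd.le w)
      calc (φ w : ℝ≥0∞) * ‖m w‖ₑ ≤ (φ w : ℝ≥0∞) * 1 := by gcongr
        _ = _ := mul_one _
    · rw [indicator_of_notMem hw]
      simp only
      have : φ w = 0 := by
        have h3 : w.1 ∉ LI.J ∨ w.2 ∉ LI.J := by
          by_contra hcon
          push Not at hcon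
          exact hw ⟨hcon.1, hcon.2⟩
        exact hd.supp w.1 w.2 h3
      rw [this]
      simp
  have h2 := eLpNorm'_le_eLpNorm'_of_exponent_le (f := fun w => (φ w : ℝ≥0∞))
    one_pos (show 1 ≤ p by linarith) ((volume : Measure (ℝ × ℝ)).restrict (LI.J ×ˢ LI.J))
    (hd.mφ.coe_nnreal_ennreal).aestronglyMeasurable
  unfold eLpNorm' at h2
  simp only [enorm_eq_self, ENNReal.rpow_one, div_one] at h2
  refine h1.trans (h2.trans ?_)
  apply ENNReal.rpow_le_rpow _ (by positivity)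
  refine (setLIntegral_le_lintegral _ _).trans ?_
  unfold wn
  apply lintegral_mono
  intro w
  have hN1 : (1 : ℝ≥0∞) ≤ (N w.1 : ℝ≥0∞) ^ (p / 6) := by
    apply ENNReal.one_le_rpow _ (by positivity)
    exact_mod_cast hd.one w.1
  calc (φ w : ℝ≥0∞) ^ p = 1 * (φ w : ℝ≥0∞) ^ p := (one_mul _).symm
    _ ≤ _ := mul_le_mul_left hN1 _

theorem sums (p q : ℝ) (hq : 3 < q) (hp : 3 ≤ p) (hpq : q < p * (q - 2)) :
    ∃ C : ℝ≥0, ∀ (F : ℕ → ℝ × ℝ → ℂ) (A : ℕ → ℝ≥0∞) (f : ℝ × ℝ → ℂ),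
      (∀ j, At p (A j) (F j)) → ∑' j, A j ≠ ∞ → (∀ᵐ x, f x = ∑' j, F j x) →
      eLpNorm (ext f) (ENNReal.ofReal q) volume ≤ C * ∑' j, A j := by
  obtain ⟨C, hC⟩ := frame_bound p q hq hp hpq
  refine ⟨C, ?_⟩
  intro F A f hF hA hf
  have h1 : ∑' j, ∫⁻ x, ‖F j x‖ₑ ≠ ∞ :=
    ne_top_of_le_ne_top hA (ENNReal.tsum_le_tsum fun j => (hF j).l1 hp)
  refine (ext_sum_le (fun j => (hF j).meas) h1 hf ?_).trans ?_
  · rw [← ENNReal.ofReal_one]
    exact ENNReal.ofReal_le_ofReal (by linarith)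
  · rw [← ENNReal.tsum_mul_left]
    refine ENNReal.tsum_le_tsum fun j => ?_
    obtain ⟨θ, N, φ, m, hd, hFj, hAj⟩ := hF j
    have e : F j = fun x => (φ (rot θ x) : ℂ) * m (rot θ x) := funext hFj
    rw [e]
    exact (hC θ N φ m hd).trans (by gcongr)

lemma At.zero (p : ℝ) (hp : 0 < p) : At p 0 (fun _ => 0) := by
  refine ⟨0, fun _ => 1, fun _ => 0, fun _ => 0, ⟨measurable_const, fun _ => le_rfl,
    measurable_const, measurable_const, fun _ => by simp, fun _ _ _ => rfl, ?_, ?_⟩, by simp, ?_⟩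
  · intro u s
    refine ⟨fun _ => ∅, fun _ => ordConnected_empty, ?_⟩
    ext v
    simp
  · intro u h _
    simp
  · unfold wn
    simp [ENNReal.zero_rpow_of_pos hp, hp]

/-- **Real and imaginary parts with simple superlevel sets.** -/
theorem simple (p q : ℝ) (hq : 3 < q) (hp : 3 ≤ p) (hpq : q < p * (q - 2)) :
    ∃ C : ℝ≥0, ∀ (θ : ℝ) (N : ℝ → ℕ) (g : ℝ × ℝ → ℂ), Measurable N → (∀ u, 1 ≤ N u) →
      Measurable g → (∀ u v, u ∉ LI.J ∨ v ∉ LI.J → g (u, v) = 0) →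
      (∀ u, Lvl (N u) fun v => (g (u, v)).re.toNNReal) →
      (∀ u, Lvl (N u) fun v => (-(g (u, v)).re).toNNReal) →
      (∀ u, Lvl (N u) fun v => (g (u, v)).im.toNNReal) →
      (∀ u, Lvl (N u) fun v => (-(g (u, v)).im).toNNReal) →
      eLpNorm (ext fun x => g (rot θ x)) (ENNReal.ofReal q) volume ≤
        C * (∫⁻ w : ℝ × ℝ, (N w.1 : ℝ≥0∞) ^ (p / 6) * ‖g w‖ₑ ^ p) ^ (1 / p) := by
  obtain ⟨C, hC⟩ := sums p q hq hp hpq
  have hp0 : 0 < p := by linarith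
  refine ⟨4 * C + 1, ?_⟩
  intro θ N g hN hN1 hg hs l0 l1 l2 l3
  obtain ⟨A, hA⟩ : ∃ A : ℝ≥0∞, A = (∫⁻ w : ℝ × ℝ, (N w.1 : ℝ≥0∞) ^ (p / 6) * ‖g w‖ₑ ^ p) ^ (1 / p) :=
    ⟨_, rfl⟩
  rw [← hA]
  by_cases hAt : A = ∞
  · rw [hAt, ENNReal.mul_top (by simp)]
    exact le_top
  have hre : Measurable fun w => (g w).re := Complex.measurable_re.comp hg
  have him : Measurable fun w => (g w).im := Complex.measurable_im.comp hg
  -- an atom
  have key : ∀ (φ : ℝ × ℝ → ℝ≥0) (c : ℂ), Measurable φ → ‖c‖ ≤ 1 → (∀ w, (φ w : ℝ) ≤ ‖g w‖) →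
      (∀ u, Lvl (N u) fun v => φ (u, v)) → At p A fun x => (φ (rot θ x) : ℂ) * c := by
    intro φ c hφ hc hle hl
    refine ⟨θ, N, φ, fun _ => c, ⟨hN, hN1, hφ, measurable_const, fun _ => hc, ?_, hl, ?_⟩,
      fun _ => rfl, ?_⟩
    · intro u v huv
      have h1 := hle (u, v)
      rw [hs u v huv, norm_zero] at h1
      exact le_antisymm (by exact_mod_cast h1) bot_le
    · intro u h _
      simp
    · rw [hA]
      apply ENNReal.rpow_le_rpow _ (by positivity)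
      unfold wn
      apply lintegral_mono
      intro w
      simp only
      gcongr
      rw [← ofReal_norm, ← ENNReal.ofReal_coe_nnreal]
      exact ENNReal.ofReal_le_ofReal (hle w)
  have hb : ∀ (a b : ℝ), |a| ≤ b → (a.toNNReal : ℝ) ≤ b := by
    intro a b hab
    rw [Real.coe_toNNReal']
    exact max_le ((le_abs_self _).trans hab) ((abs_nonneg _).trans hab)
  have k0 := key (fun w => (g w).re.toNNReal) 1 hre.real_toNNReal (by simp)
    (fun w => hb _ _ (Complex.abs_re_le_norm _)) l0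
  have k1 := key (fun w => (-(g w).re).toNNReal) (-1) hre.neg.real_toNNReal (by simp)
    (fun w => hb _ _ (by rw [abs_neg]; exact Complex.abs_re_le_norm _)) l1
  have k2 := key (fun w => (g w).im.toNNReal) I him.real_toNNReal (by simp)
    (fun w => hb _ _ (Complex.abs_im_le_norm _)) l2
  have k3 := key (fun w => (-(g w).im).toNNReal) (-I) him.neg.real_toNNReal (by simp)
    (fun w => hb _ _ (by rw [abs_neg]; exact Complex.abs_im_le_norm _)) l3
  obtain ⟨F, hF⟩ : ∃ F : ℕ → ℝ × ℝ → ℂ, F = fun j x =>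
    if j = 0 then ((g (rot θ x)).re.toNNReal : ℂ) * 1
    else if j = 1 then ((-(g (rot θ x)).re).toNNReal : ℂ) * (-1)
    else if j = 2 then ((g (rot θ x)).im.toNNReal : ℂ) * I
    else if j = 3 then ((-(g (rot θ x)).im).toNNReal : ℂ) * (-I) else 0 := ⟨_, rfl⟩
  obtain ⟨B, hB⟩ : ∃ B : ℕ → ℝ≥0∞, B = fun j => if j < 4 then A else 0 := ⟨_, rfl⟩
  have hsum : ∑' j, B j = 4 * A := by
    rw [tsum_eq_sum (s := Finset.range 4)]
    · rw [hB]
      simp [Finset.sum_range_succ]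
      ring
    · intro j hj
      rw [Finset.mem_range, not_lt] at hj
      rw [hB]
      simp only
      rw [if_neg (by omega)]
  have h := hC F B (fun x => g (rot θ x)) ?_ ?_ ?_
  · rw [hsum] at h
    refine h.trans ?_
    calc (C : ℝ≥0∞) * (4 * A) = (4 * C) * A := by ring
      _ ≤ (4 * C + 1) * A := by gcongr; exact le_self_add
      _ = _ := by push_cast; rfl
  · intro j
    rw [hF, hB]
    simp only
    rcases Nat.lt_or_ge j 4 with hj | hj
    · rw [if_pos hj]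
      interval_cases j
      · simpa using k0
      · simpa using k1
      · simpa using k2
      · simpa using k3
    · rw [if_neg (by omega)]
      have : (fun x : ℝ × ℝ => if j = 0 then ((g (rot θ x)).re.toNNReal : ℂ) * 1
          else if j = 1 then ((-(g (rot θ x)).re).toNNReal : ℂ) * (-1)
          else if j = 2 then ((g (rot θ x)).im.toNNReal : ℂ) * I
          else if j = 3 then ((-(g (rot θ x)).im).toNNReal : ℂ) * (-I) else 0) =
          fun _ => (0 : ℂ) := by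
        funext x
        rw [if_neg (by omega), if_neg (by omega), if_neg (by omega), if_neg (by omega)]
      rw [this]
      exact At.zero p hp0
  · rw [hsum]
    exact ENNReal.mul_ne_top (by norm_num) hAt
  · refine ae_of_all _ fun x => ?_
    rw [tsum_eq_sum (s := Finset.range 4)]
    · rw [hF]
      simp only [Finset.sum_range_succ, Finset.sum_range_zero]
      obtain ⟨z, hz⟩ : ∃ z : ℂ, z = g (rot θ x) := ⟨_, rfl⟩
      rw [← hz]
      have e : ∀ a : ℝ, (a.toNNReal : ℂ) - ((-a).toNNReal : ℂ) = a := by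
        intro a
        show (((a.toNNReal : ℝ≥0) : ℝ) : ℂ) - ((((-a).toNNReal : ℝ≥0) : ℝ) : ℂ) = a
        rw [Real.coe_toNNReal', Real.coe_toNNReal', ← Complex.ofReal_sub]
        congr 1
        rcases le_total a 0 with h1 | h1
        · rw [max_eq_right h1, max_eq_left (by linarith)]
          ring
        · rw [max_eq_left h1, max_eq_right (by linarith)]
          ring
      have e1 := e z.re
      have e2 := e z.im
      have e3 := Complex.re_add_im z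
      rw [if_pos trivial, if_neg (by norm_num : ¬ (1 : ℕ) = 0), if_pos trivial,
        if_neg (by norm_num : ¬ (2 : ℕ) = 0), if_neg (by norm_num : ¬ (2 : ℕ) = 1),
        if_pos trivial, if_neg (by norm_num : ¬ (3 : ℕ) = 0),
        if_neg (by norm_num : ¬ (3 : ℕ) = 1), if_neg (by norm_num : ¬ (3 : ℕ) = 2),
        if_pos trivial]
      obtain ⟨r1, hr1⟩ : ∃ r : ℂ, r = (z.re.toNNReal : ℂ) := ⟨_, rfl⟩
      obtain ⟨r2, hr2⟩ : ∃ r : ℂ, r = ((-z.re).toNNReal : ℂ) := ⟨_, rfl⟩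
      obtain ⟨r3, hr3⟩ : ∃ r : ℂ, r = (z.im.toNNReal : ℂ) := ⟨_, rfl⟩
      obtain ⟨r4, hr4⟩ : ∃ r : ℂ, r = ((-z.im).toNNReal : ℂ) := ⟨_, rfl⟩
      rw [← hr1, ← hr2] at e1
      rw [← hr3, ← hr4] at e2
      rw [← hr1, ← hr2, ← hr3, ← hr4]
      linear_combination (-1 : ℂ) * e3 + (-1 : ℂ) * e1 - I * e2
    · intro j hj
      rw [Finset.mem_range, not_lt] at hj
      rw [hF]
      simp only
      rw [if_neg (by omega), if_neg (by omega), if_neg (by omega), if_neg (by omega)]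

end Pool.Agent.V1178.LI
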