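import Pool.Agent.V1178.LI.Two
import Pool.Agent.V1157.TD.A
import Pool.Agent.W771.MK
set_option autoImplicit false

/-! The estimate for densities whose superlevel sets are unions of few intervals on lines. -/

namespace Pool.Agent.V1178.LI

open MeasureTheory Set Complex Filter Topology
open scoped ENNReal NNReal
open Pool.Agent.W771 Pool.Agent.V1157.TD

/-- The densities `φ m` in coordinates `(u, v)`. -/
structure Dens (N : ℝ → ℕ) (φ : ℝ × ℝ → ℝ≥0) (m : ℝ × ℝ → ℂ) : Prop where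
  mN : Measurable N
  one : ∀ u, 1 ≤ N u
  mφ : Measurable φ
  mm : Measurable m
  le : ∀ w, ‖m w‖ ≤ 1
  supp : ∀ u v, u ∉ LI.J ∨ v ∉ LI.J → φ (u, v) = 0
  lvl : ∀ u, Lvl (N u) fun v => φ (u, v)
  half : ∀ u, HalfD (N u) fun v => m (u, v)

/-- The weighted norm, to the power `p`. -/
noncomputable def wn (N : ℝ → ℕ) (p : ℝ) (φ : ℝ × ℝ → ℝ≥0) : ℝ≥0∞ :=
  ∫⁻ w : ℝ × ℝ, (N w.1 : ℝ≥0∞) ^ (p / 6) * (φ w : ℝ≥0∞) ^ p

lemma lint_one (g : ℝ → ℝ≥0∞) (hg : Measurable g) : ∫⁻ v : Fin 1 → ℝ, g (v 0) = ∫⁻ x, g x :=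
  (volume_preserving_funUnique (Fin 1) ℝ).lintegral_comp hg

lemma set_one (g : ℝ → ℝ≥0∞) (hg : Measurable g) (s : Set (Fin 1 → ℝ)) :
    ∫⁻ v in s, g (v 0) ≤ ∫⁻ x, g x :=
  (setLIntegral_le_lintegral _ _).trans (lint_one g hg).le

lemma norm_one (h : Fin 1 → ℝ) : ‖h‖ = |h 0| := by
  rw [← Real.norm_eq_abs]
  apply le_antisymm
  · rw [pi_norm_le_iff_of_nonneg (norm_nonneg _)]
    intro i
    rw [Subsingleton.elim i 0]
  · exact norm_le_pi_norm h 0

/-- The two forms of the extension operator. -/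
lemma ext_EE (F : ℝ × ℝ → ℂ) (hF : ∀ u v, u ∉ LI.J ∨ v ∉ LI.J → F (u, v) = 0) (x y t : ℝ) :
    Pool.Agent.H728R3.SR.ext (n := 2) (fun ξ => F (ξ 0, ξ 1))
      ((Fin.cons x (fun _ => y) : Fin 2 → ℝ), t) =
      EE F (-(2 * Real.pi) * x) (-(2 * Real.pi) * y) (-(2 * Real.pi) * t) := by
  unfold Pool.Agent.H728R3.SR.ext EE
  have hmp := (volume_preserving_finTwoArrow ℝ)
  have h1 := hmp.integral_comp (MeasurableEquiv.finTwoArrow (α := ℝ)).measurableEmbedding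
    (fun w : ℝ × ℝ => F w * (ph (-(2 * Real.pi) * x) (-(2 * Real.pi) * t) w.1 *
      ph (-(2 * Real.pi) * y) (-(2 * Real.pi) * t) w.2))
  rw [← h1, ← integral_indicator measurableSet_Icc]
  apply integral_congr_ae
  refine ae_of_all _ fun ξ => ?_
  have e : MeasurableEquiv.finTwoArrow (α := ℝ) ξ = (ξ 0, ξ 1) := rfl
  simp only [e]
  by_cases hξ : ξ ∈ Icc (fun _ : Fin 2 => (-1 : ℝ)) (fun _ => 1)
  · rw [indicator_of_mem hξ]
    congr 1
    unfold ph
    rw [← Complex.exp_add]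
    congr 1
    simp only [Fin.sum_univ_two]
    have c0 : (Fin.cons x (fun _ => y) : Fin 2 → ℝ) 0 = x := rfl
    have c1 : (Fin.cons x (fun _ => y) : Fin 2 → ℝ) 1 = y := rfl
    rw [c0, c1]
    push_cast
    ring
  · rw [indicator_of_notMem hξ]
    have : F (ξ 0, ξ 1) = 0 := by
      apply hF
      by_contra hcon
      push Not at hcon
      apply hξ
      have hs : ∀ z : ℝ, z ∈ LI.J → -1 ≤ z ∧ z ≤ 1 := by
        rintro z ⟨h1, h2⟩
        constructor <;> linarith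
      have b0 := hs _ hcon.1
      have b1 := hs _ hcon.2
      constructor
      · intro i
        fin_cases i
        · exact b0.1
        · exact b1.1
      · intro i
        fin_cases i
        · exact b0.2
        · exact b1.2
    rw [this, zero_mul]

lemma scale3 (G : ℝ → ℝ → ℝ → ℝ≥0∞) (hG : Measurable fun z : ℝ × ℝ × ℝ => G z.1 z.2.1 z.2.2)
    {c : ℝ} (hc : c ≠ 0) :
    ∫⁻ t, ∫⁻ x, ∫⁻ y, G (c * x) (c * y) (c * t) =
      ENNReal.ofReal |c⁻¹| ^ 3 * ∫⁻ t, ∫⁻ x, ∫⁻ y, G x y t := by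
  have m1 : ∀ x t, Measurable fun y => G x y t := fun x t =>
    hG.comp (f := fun y : ℝ => ((x, y, t) : ℝ × ℝ × ℝ)) (by fun_prop)
  have m2 : ∀ t, Measurable fun x => ∫⁻ y, G x y t := by
    intro t
    apply Measurable.lintegral_prod_right'
      (f := fun w : ℝ × ℝ => G w.1 w.2 t)
    exact hG.comp (f := fun w : ℝ × ℝ => ((w.1, w.2, t) : ℝ × ℝ × ℝ)) (by fun_prop)
  have m3 : Measurable fun t => ∫⁻ x, ∫⁻ y, G x y t := by
    have h1 : Measurable fun w : ℝ × ℝ => ∫⁻ y, G w.2 y w.1 := by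
      apply Measurable.lintegral_prod_right' (f := fun w : (ℝ × ℝ) × ℝ => G w.1.2 w.2 w.1.1)
      exact hG.comp (f := fun w : (ℝ × ℝ) × ℝ => ((w.1.2, w.2, w.1.1) : ℝ × ℝ × ℝ)) (by fun_prop)
    exact Measurable.lintegral_prod_right' h1
  have e1 : ∀ t x, ∫⁻ y, G (c * x) (c * y) (c * t) =
      ENNReal.ofReal |c⁻¹| * ∫⁻ y, G (c * x) y (c * t) := fun t x =>
    lint_scale _ (m1 (c * x) (c * t)) c hc
  simp only [e1]
  have e2 : ∀ t, ∫⁻ x, ENNReal.ofReal |c⁻¹| * ∫⁻ y, G (c * x) y (c * t) =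
      ENNReal.ofReal |c⁻¹| * (ENNReal.ofReal |c⁻¹| * ∫⁻ x, ∫⁻ y, G x y (c * t)) := by
    intro t
    have h1 : Measurable fun x => ∫⁻ y, G (c * x) y (c * t) :=
      (m2 (c * t)).comp (measurable_const_mul c)
    rw [lintegral_const_mul _ h1]
    congr 1
    exact lint_scale _ (m2 (c * t)) c hc
  simp only [e2]
  have h1 : Measurable fun t => ∫⁻ x, ∫⁻ y, G x y (c * t) := m3.comp (measurable_const_mul c)
  rw [lintegral_const_mul _ (h1.const_mul _), lintegral_const_mul _ h1]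
  have h2 : ∫⁻ t, ∫⁻ x, ∫⁻ y, G x y (c * t) =
      ENNReal.ofReal |c⁻¹| * ∫⁻ t, ∫⁻ x, ∫⁻ y, G x y t := lint_scale _ m3 c hc
  rw [h2]
  ring

/-- **The estimate in coordinates.** -/
theorem EE_bound (p q : ℝ) (hq : 3 < q) (hp : 3 ≤ p) (hpq : q < p * (q - 2)) :
    ∃ C : ℝ≥0, ∀ (N : ℝ → ℕ) (φ : ℝ × ℝ → ℝ≥0) (m : ℝ × ℝ → ℂ), Dens N φ m →
      ∫⁻ t, ∫⁻ x, ∫⁻ y, ‖EE (fun w => (φ w : ℂ) * m w) x y t‖ₑ ^ q ≤
        C * (wn N p φ) ^ (q / p) := by
  have hq0 : 0 < q := by linarith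
  have hp0 : 0 < p := by linarith
  obtain ⟨C, hC⟩ := Pool.Agent.W771.MD.mainExt (m := 1) le_rfl q p
    (by push_cast; linarith) (by linarith) (by push_cast; nlinarith)
  obtain ⟨B, hB⟩ : ∃ B : ℝ, B = 5 ^ p := ⟨_, rfl⟩
  have hB1 : 1 ≤ B := by
    rw [hB]
    exact Real.one_le_rpow (by norm_num) (by positivity)
  have hB0 : 0 < B := by linarith
  have h2π : -(2 * Real.pi) ≠ 0 := by
    have := Real.pi_pos
    linarith
  obtain ⟨c, hc⟩ : ∃ c : ℝ≥0∞, c = ENNReal.ofReal |(-(2 * Real.pi))⁻¹| ^ 3 := ⟨_, rfl⟩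
  have hcp : 0 < |(-(2 * Real.pi))⁻¹| := abs_pos.2 (inv_ne_zero h2π)
  have hc0 : c ≠ 0 := by
    rw [hc]
    exact pow_ne_zero _ (by rw [ne_eq, ENNReal.ofReal_eq_zero, not_le]; exact hcp)
  have hct : c ≠ ∞ := by
    rw [hc]
    exact ENNReal.pow_ne_top ENNReal.ofReal_ne_top
  obtain ⟨D, hD⟩ : ∃ D : ℝ≥0∞, D = c⁻¹ * ((C : ℝ≥0∞) * ENNReal.ofReal B ^ (1 / p)) ^ q + 1 :=
    ⟨_, rfl⟩
  have hDt : D ≠ ∞ := by
    rw [hD]
    refine ENNReal.add_ne_top.2 ⟨ENNReal.mul_ne_top (ENNReal.inv_ne_top.2 hc0)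
      (ENNReal.rpow_ne_top_of_nonneg hq0.le (ENNReal.mul_ne_top ENNReal.coe_ne_top
        (ENNReal.rpow_ne_top_of_nonneg (by positivity) ENNReal.ofReal_ne_top))), by simp⟩
  refine ⟨D.toNNReal, ?_⟩
  rw [ENNReal.coe_toNNReal hDt]
  intro N φ m hd
  obtain ⟨F, hF⟩ : ∃ F : ℝ × ℝ → ℂ, F = fun w => (φ w : ℂ) * m w := ⟨_, rfl⟩
  have hmc : Measurable fun w => (φ w : ℂ) := by
    have := hd.mφ
    have h1 : Measurable fun w => ((φ w : ℝ) : ℂ) := by fun_prop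
    exact h1
  have hFm : Measurable F := by
    rw [hF]
    exact hmc.mul hd.mm
  have hF0 : ∀ u v, u ∉ LI.J ∨ v ∉ LI.J → F (u, v) = 0 := by
    intro u v huv
    rw [hF]
    show (φ (u, v) : ℂ) * m (u, v) = 0
    rw [hd.supp u v huv]
    simp
  obtain ⟨P, hP⟩ : ∃ P : ℝ≥0∞, P = wn N p φ := ⟨_, rfl⟩
  have hφp : Measurable fun w => (φ w : ℝ≥0∞) ^ p := by
    have := hd.mφ
    fun_prop
  have hNp : Measurable fun u : ℝ => (N u : ℝ≥0∞) ^ (p / 6) := by
    have h1 : Measurable fun u : ℝ => (N u : ℝ≥0∞) :=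
      (measurable_from_nat (f := fun n : ℕ => (n : ℝ≥0∞))).comp hd.mN
    exact h1.pow_const _
  have hN1 : ∀ u, (1 : ℝ≥0∞) ≤ (N u : ℝ≥0∞) ^ (p / 6) := by
    intro u
    apply ENNReal.one_le_rpow _ (by positivity)
    exact_mod_cast hd.one u
  have hPi : ∫⁻ u, (N u : ℝ≥0∞) ^ (p / 6) * ∫⁻ v, (φ (u, v) : ℝ≥0∞) ^ p = P := by
    rw [hP]
    unfold wn
    have hm2 : Measurable fun w : ℝ × ℝ => (N w.1 : ℝ≥0∞) ^ (p / 6) * (φ w : ℝ≥0∞) ^ p :=
      (hNp.comp measurable_fst).mul hφp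
    rw [Measure.volume_eq_prod, lintegral_prod _ hm2.aemeasurable]
    apply lintegral_congr
    intro u
    have hm3 : Measurable fun v : ℝ => (φ (u, v) : ℝ≥0∞) ^ p :=
      hφp.comp (measurable_const.prodMk measurable_id)
    exact (lintegral_const_mul _ hm3).symm
  have hPle : ∫⁻ u, ∫⁻ v, (φ (u, v) : ℝ≥0∞) ^ p ≤ P := by
    rw [← hPi]
    apply lintegral_mono
    intro u
    calc ∫⁻ v, (φ (u, v) : ℝ≥0∞) ^ p = 1 * ∫⁻ v, (φ (u, v) : ℝ≥0∞) ^ p := (one_mul _).symm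
      _ ≤ _ := mul_le_mul_left (hN1 u) _
  rw [← hF, ← hP]
  by_cases hPt : P = ∞
  · rw [hPt, ENNReal.top_rpow_of_pos (by positivity), ENNReal.mul_top (by rw [hD]; simp)]
    exact le_top
  by_cases hP0 : P = 0
  · have h1 : ∫⁻ w, ‖F w‖ₑ = 0 := by
      rw [lintegral_eq_zero_iff hFm.enorm]
      have h0 : ∫⁻ w, (φ w : ℝ≥0∞) ^ p = 0 := by
        refine le_antisymm ?_ bot_le
        have h1 : ∫⁻ w, (φ w : ℝ≥0∞) ^ p ≤ P := by
          rw [Measure.volume_eq_prod, lintegral_prod _ hφp.aemeasurable]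
          exact hPle
        rw [hP0] at h1
        exact h1
      rw [lintegral_eq_zero_iff hφp] at h0
      filter_upwards [h0] with w hw
      have h2 : φ w = 0 := by
        have h3 := (ENNReal.rpow_eq_zero_iff_of_pos hp0).1 hw
        exact_mod_cast h3
      rw [hF]
      show ‖(φ w : ℂ) * m w‖ₑ = 0
      rw [h2]
      simp
    have h2 : ∀ x y t, ‖EE F x y t‖ₑ ^ q = 0 := by
      intro x y t
      have h3 : ‖EE F x y t‖ₑ ≤ 0 := (EE_sup F x y t).trans h1.le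
      rw [le_antisymm h3 bot_le, ENNReal.zero_rpow_of_pos hq0]
    simp [h2]
  -- the constant
  obtain ⟨K0, hK0⟩ : ∃ K0 : ℝ≥0∞, K0 = (ENNReal.ofReal B * P) ^ (1 / p) := ⟨_, rfl⟩
  have hBP0 : ENNReal.ofReal B * P ≠ 0 :=
    mul_ne_zero (by rw [ne_eq, ENNReal.ofReal_eq_zero, not_le]; exact hB0) hP0
  have hBPt : ENNReal.ofReal B * P ≠ ∞ := ENNReal.mul_ne_top ENNReal.ofReal_ne_top hPt
  have hKp : K0 ^ p = ENNReal.ofReal B * P := by
    rw [hK0, ← ENNReal.rpow_mul, one_div_mul_cancel hp0.ne', ENNReal.rpow_one]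
  have hf2 : Measurable fun ξ : Fin 2 → ℝ => F (ξ 0, ξ 1) :=
    hFm.comp ((measurable_pi_apply 0).prodMk (measurable_pi_apply 1))
  have key := hC (fun ξ : Fin 2 → ℝ => F (ξ 0, ξ 1)) hf2 K0
    (by rw [hK0]; exact (ENNReal.rpow_pos (pos_iff_ne_zero.2 hBP0) hBPt).ne')
    (by rw [hK0]; exact ENNReal.rpow_ne_top_of_nonneg (by positivity) hBPt) ?_ ?_
  · -- conclusion
    have hmeas : Measurable fun z : (Fin 2 → ℝ) × ℝ =>
        ‖Pool.Agent.H728R3.SR.ext (fun ξ : Fin 2 → ℝ => F (ξ 0, ξ 1)) z‖ₑ ^ q :=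
      (Pool.Agent.W771.MD.ext_meas 2 _ hf2).enorm.pow_const q
    rw [Pool.Agent.W771.MD.lint_cons _ hmeas] at key
    have e1 : ∀ t x : ℝ, ∫⁻ y : Fin 1 → ℝ,
        ‖Pool.Agent.H728R3.SR.ext (fun ξ : Fin 2 → ℝ => F (ξ 0, ξ 1))
          ((Fin.cons x y : Fin 2 → ℝ), t)‖ₑ ^ q =
        ∫⁻ y : ℝ, ‖EE F (-(2 * Real.pi) * x) (-(2 * Real.pi) * y) (-(2 * Real.pi) * t)‖ₑ ^ q := by
      intro t x
      rw [← lint_one (fun y => ‖EE F (-(2 * Real.pi) * x) (-(2 * Real.pi) * y)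
        (-(2 * Real.pi) * t)‖ₑ ^ q)]
      · apply lintegral_congr
        intro y
        rw [← ext_EE F hF0]
        congr 4
        ext i
        refine Fin.cases rfl (fun i => ?_) i
        rw [Subsingleton.elim i 0]
        rfl
      · exact ((EE_meas F hFm).enorm.pow_const q).comp
          (g := fun z : ℝ × ℝ × ℝ => ‖EE F z.1 z.2.1 z.2.2‖ₑ ^ q)
          (f := fun y : ℝ => (-(2 * Real.pi) * x, -(2 * Real.pi) * y, -(2 * Real.pi) * t))
          (by fun_prop)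
    simp only [e1] at key
    rw [scale3 (fun x y t => ‖EE F x y t‖ₑ ^ q) ((EE_meas F hFm).enorm.pow_const q) h2π,
      ← hc] at key
    have h3 : ∫⁻ t, ∫⁻ x, ∫⁻ y, ‖EE F x y t‖ₑ ^ q ≤ c⁻¹ * (C * K0) ^ q := by
      rw [← ENNReal.mul_le_mul_iff_right hc0 hct, ← mul_assoc, ENNReal.mul_inv_cancel hc0 hct,
        one_mul]
      exact key
    refine h3.trans ?_
    have e2 : ((C : ℝ≥0∞) * K0) ^ q =
        ((C : ℝ≥0∞) * ENNReal.ofReal B ^ (1 / p)) ^ q * P ^ (q / p) := by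
      rw [hK0, ENNReal.mul_rpow_of_nonneg _ _ (show (0 : ℝ) ≤ 1 / p by positivity), ← mul_assoc,
        ENNReal.mul_rpow_of_nonneg _ _ hq0.le, ← ENNReal.rpow_mul P]
      congr 2
      ring
    rw [e2, ← mul_assoc]
    gcongr
    rw [hD]
    exact le_self_add
  · -- the norm
    rw [hKp]
    calc ∫⁻ u in Icc (-1 : ℝ) 1, (∫⁻ v in MD.Cb 1, ‖F ((Fin.cons u v : Fin 2 → ℝ) 0,
          (Fin.cons u v : Fin 2 → ℝ) 1)‖ₑ ^ 2) ^ (p / 2)
        ≤ ∫⁻ u, ∫⁻ v, (φ (u, v) : ℝ≥0∞) ^ p := by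
          refine (setLIntegral_le_lintegral _ _).trans (lintegral_mono fun u => ?_)
          have h1 : ∫⁻ v in MD.Cb 1, ‖F ((Fin.cons u v : Fin 2 → ℝ) 0,
              (Fin.cons u v : Fin 2 → ℝ) 1)‖ₑ ^ 2 ≤ ∫⁻ v, ‖(φ (u, v) : ℂ) * m (u, v)‖ₑ ^ 2 := by
            have hg : Measurable fun v : ℝ => ‖F (u, v)‖ₑ ^ 2 :=
              ((hFm.comp (measurable_const.prodMk measurable_id)).enorm.pow_const 2)
            have h2 := set_one _ hg (MD.Cb 1)
            rw [hF] at h2 ⊢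
            exact h2
          refine (ENNReal.rpow_le_rpow h1 (by positivity)).trans ?_
          exact norm_le (φ := fun v => φ (u, v)) (m := fun v => m (u, v))
            (hd.mφ.comp (measurable_const.prodMk measurable_id))
            (fun v hv => hd.supp u v (Or.inr hv)) (fun v => hd.le _) (by linarith)
      _ ≤ P := hPle
      _ ≤ ENNReal.ofReal B * P := by
          have : (1 : ℝ≥0∞) ≤ ENNReal.ofReal B := by
            rw [← ENNReal.ofReal_one]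
            exact ENNReal.ofReal_le_ofReal hB1
          calc P = 1 * P := (one_mul _).symm
            _ ≤ _ := by gcongr
  · -- the translations
    intro h hh
    rw [norm_one] at hh ⊢
    have hexp : ((1 : ℕ) : ℝ) / (2 * (((1 : ℕ) : ℝ) + 2)) = 1 / 6 := by norm_num
    rw [hexp, ENNReal.mul_rpow_of_nonneg _ _ hp0.le, hKp,
      ENNReal.ofReal_rpow_of_nonneg (by positivity) hp0.le]
    have hFu : ∀ u, Measurable fun v : ℝ => ‖(φ (u, v + h 0) : ℂ) * m (u, v + h 0) -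
        φ (u, v) * m (u, v)‖ₑ ^ 2 := by
      intro u
      have h1 : Measurable fun v : ℝ => F (u, v + h 0) :=
        hFm.comp (measurable_const.prodMk (measurable_id.add_const _))
      have h2 : Measurable fun v : ℝ => F (u, v) :=
        hFm.comp (measurable_const.prodMk measurable_id)
      rw [hF] at h1 h2
      exact (h1.sub h2).enorm.pow_const 2
    have hle : ∀ u, (∫⁻ v in {v | v ∈ MD.Cb 1 ∧ v + h ∈ MD.Cb 1},
        ‖F ((Fin.cons u (v + h) : Fin 2 → ℝ) 0, (Fin.cons u (v + h) : Fin 2 → ℝ) 1) -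
          F ((Fin.cons u v : Fin 2 → ℝ) 0, (Fin.cons u v : Fin 2 → ℝ) 1)‖ₑ ^ 2) ≤
        ∫⁻ v, ‖(φ (u, v + h 0) : ℂ) * m (u, v + h 0) - φ (u, v) * m (u, v)‖ₑ ^ 2 := by
      intro u
      have h2 := set_one _ (hFu u) {v | v ∈ MD.Cb 1 ∧ v + h ∈ MD.Cb 1}
      rw [hF]
      exact h2
    by_cases h0 : h 0 = 0
    · refine le_trans (b := (0 : ℝ≥0∞)) (le_of_eq ?_) bot_le
      rw [lintegral_eq_zero_iff']
      · refine ae_of_all _ fun u => ?_
        have h1 := hle u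
        rw [h0] at h1
        simp only [add_zero, sub_self, enorm_zero, ne_eq, OfNat.ofNat_ne_zero, not_false_eq_true,
          zero_pow, lintegral_zero] at h1
        show (∫⁻ v in {v | v ∈ MD.Cb 1 ∧ v + h ∈ MD.Cb 1},
          ‖F ((Fin.cons u (v + h) : Fin 2 → ℝ) 0, (Fin.cons u (v + h) : Fin 2 → ℝ) 1) -
          F ((Fin.cons u v : Fin 2 → ℝ) 0, (Fin.cons u v : Fin 2 → ℝ) 1)‖ₑ ^ 2) ^ (p / 2) = 0
        rw [le_antisymm h1 bot_le, ENNReal.zero_rpow_of_pos (by positivity)]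
      · have hm2 : Measurable fun w : ℝ × (Fin 1 → ℝ) =>
            ‖F ((Fin.cons w.1 (w.2 + h) : Fin 2 → ℝ) 0, (Fin.cons w.1 (w.2 + h) : Fin 2 → ℝ) 1) -
            F ((Fin.cons w.1 w.2 : Fin 2 → ℝ) 0, (Fin.cons w.1 w.2 : Fin 2 → ℝ) 1)‖ₑ ^ 2 := by
          have h1 : Measurable fun w : ℝ × (Fin 1 → ℝ) => F (w.1, w.2 0 + h 0) :=
            hFm.comp (measurable_fst.prodMk
              (((measurable_pi_apply 0).comp measurable_snd).add_const _))
          have h2 : Measurable fun w : ℝ × (Fin 1 → ℝ) => F (w.1, w.2 0) :=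
            hFm.comp (measurable_fst.prodMk ((measurable_pi_apply 0).comp measurable_snd))
          exact (h1.sub h2).enorm.pow_const 2
        exact (Measurable.lintegral_prod_right' (ν := volume.restrict
          {v | v ∈ MD.Cb 1 ∧ v + h ∈ MD.Cb 1}) hm2).pow_const _ |>.aemeasurable
    · have hpos : 0 < |h 0| := abs_pos.2 h0
      calc ∫⁻ u in Icc (-1 : ℝ) 1, (∫⁻ v in {v | v ∈ MD.Cb 1 ∧ v + h ∈ MD.Cb 1},
            ‖F ((Fin.cons u (v + h) : Fin 2 → ℝ) 0, (Fin.cons u (v + h) : Fin 2 → ℝ) 1) -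
            F ((Fin.cons u v : Fin 2 → ℝ) 0, (Fin.cons u v : Fin 2 → ℝ) 1)‖ₑ ^ 2) ^ (p / 2)
          ≤ ∫⁻ u, ENNReal.ofReal (B * |h 0| ^ (p / 6)) * ((N u : ℝ≥0∞) ^ (p / 6) *
              ∫⁻ v, (φ (u, v) : ℝ≥0∞) ^ p) := by
            refine (setLIntegral_le_lintegral _ _).trans (lintegral_mono fun u => ?_)
            refine (ENNReal.rpow_le_rpow (hle u) (by positivity)).trans ?_
            rw [hB]
            refine (trans_all (hd.one u) (φ := fun v => φ (u, v)) (m := fun v => m (u, v))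
              (hd.mφ.comp (measurable_const.prodMk measurable_id)) (hd.lvl u)
              (fun v hv => hd.supp u v (Or.inr hv))
              (hd.mm.comp (measurable_const.prodMk measurable_id)) (fun v => hd.le _)
              (hd.half u) hp h0 hh).trans (le_of_eq ?_)
            rw [← mul_assoc]
            congr 1
            have e9 : (N u : ℝ≥0∞) ^ (p / 6) = ENNReal.ofReal ((N u : ℝ) ^ (p / 6)) := by
              rw [← ENNReal.ofReal_rpow_of_nonneg (by positivity) (by positivity),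
                ENNReal.ofReal_natCast]
            rw [e9, ← ENNReal.ofReal_mul (by positivity),
              Real.mul_rpow (by positivity) (abs_nonneg _)]
            congr 1
            ring
        _ = ENNReal.ofReal (B * |h 0| ^ (p / 6)) * P := by
            have hm4 : Measurable fun u : ℝ => (N u : ℝ≥0∞) ^ (p / 6) *
                ∫⁻ v, (φ (u, v) : ℝ≥0∞) ^ p :=
              hNp.mul (Measurable.lintegral_prod_right' hφp)
            rw [lintegral_const_mul _ hm4, hPi]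
        _ ≤ ENNReal.ofReal B * P * ENNReal.ofReal ((|h 0| ^ (1 / 6 : ℝ)) ^ p) := by
            rw [ENNReal.ofReal_mul hB0.le, mul_assoc, mul_assoc, mul_comm P,
              ← Real.rpow_mul (abs_nonneg _)]
            have : (1 / 6 : ℝ) * p = p / 6 := by ring
            rw [this]

end Pool.Agent.V1178.LI
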