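import Pool.Agent.V1178.LI.One
set_option autoImplicit false

/-! One variable: the optimal level of truncation. -/

namespace Pool.Agent.V1178.LI

open MeasureTheory Set
open scoped ENNReal NNReal

/-- limits of bounds -/
lemma le_mul_of_forall {X c P : ℝ≥0∞} (hc : c ≠ ∞) (hc0 : c ≠ 0)
    (H : ∀ L : ℝ≥0, 0 < L → P ≤ L → X ≤ c * L) : X ≤ c * P := by
  by_cases hP : P = ∞
  · rw [hP, ENNReal.mul_top hc0]
    exact le_top
  · lift P to ℝ≥0 using hP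
    have h1 : ∀ n : ℕ, X ≤ c * ((P : ℝ≥0∞) + ((n : ℝ≥0∞) + 1)⁻¹) := by
      intro n
      have h2 := H (P + ((n : ℝ≥0) + 1)⁻¹) (by positivity) (by
        exact_mod_cast (le_self_add : P ≤ P + ((n : ℝ≥0) + 1)⁻¹))
      have e : (((P + ((n : ℝ≥0) + 1)⁻¹ : ℝ≥0)) : ℝ≥0∞) = P + ((n : ℝ≥0∞) + 1)⁻¹ := by
        rw [ENNReal.coe_add, ENNReal.coe_inv (by positivity)]
        push_cast
        rfl
      rwa [e] at h2
    have ht : Filter.Tendsto (fun n : ℕ => ((n : ℝ≥0∞) + 1)⁻¹) Filter.atTop (nhds 0) := by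
      have h1 := ENNReal.tendsto_inv_nat_nhds_zero
      have h2 := (Filter.tendsto_add_atTop_iff_nat 1).mpr h1
      refine h2.congr fun n => ?_
      push_cast
      rfl
    have h3 : Filter.Tendsto (fun n : ℕ => c * ((P : ℝ≥0∞) + ((n : ℝ≥0∞) + 1)⁻¹)) Filter.atTop
        (nhds (c * ((P : ℝ≥0∞) + 0))) :=
      ENNReal.Tendsto.const_mul (tendsto_const_nhds.add ht) (Or.inr hc)
    rw [add_zero] at h3
    exact ge_of_tendsto' h3 h1

/-- the `L²` norm and the `L^p` norm -/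
lemma norm_le {φ : ℝ → ℝ≥0} {m : ℝ → ℂ} (hφ : Measurable φ) (hJ : ∀ v ∉ J, φ v = 0)
    (hm1 : ∀ v, ‖m v‖ ≤ 1) {p : ℝ} (hp : 2 ≤ p) :
    (∫⁻ v, ‖(φ v : ℂ) * m v‖ₑ ^ 2) ^ (p / 2) ≤ ∫⁻ v, (φ v : ℝ≥0∞) ^ p := by
  have hp0 : 0 < p := by linarith
  have hJm : MeasurableSet J := measurableSet_Icc
  have hprob : IsProbabilityMeasure (volume.restrict J) :=
    ⟨by rw [Measure.restrict_apply_univ, J, Real.volume_Icc]; norm_num⟩
  have h1 : ∫⁻ v, ‖(φ v : ℂ) * m v‖ₑ ^ 2 ≤ ∫⁻ v in J, (φ v : ℝ≥0∞) ^ (2 : ℝ) := by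
    rw [← lintegral_indicator hJm]
    apply lintegral_mono
    intro v
    by_cases hv : v ∈ J
    · rw [indicator_of_mem hv]
      simp only
      rw [← ENNReal.rpow_natCast]
      push_cast
      gcongr
      rw [enorm_mul]
      have h2 : ‖m v‖ₑ ≤ 1 := by
        rw [← ofReal_norm]
        exact ENNReal.ofReal_le_one.2 (hm1 v)
      calc ‖(φ v : ℂ)‖ₑ * ‖m v‖ₑ ≤ ‖(φ v : ℂ)‖ₑ * 1 := by gcongr
        _ = _ := by
            rw [mul_one, ← ofReal_norm]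
            have : ‖((φ v : ℝ) : ℂ)‖ = φ v := by
              rw [Complex.norm_real, Real.norm_of_nonneg (NNReal.coe_nonneg _)]
            rw [this, ENNReal.ofReal_coe_nnreal]
    · rw [indicator_of_notMem hv]
      simp only
      rw [hJ v hv]
      simp
  have h2 := eLpNorm'_le_eLpNorm'_of_exponent_le (f := fun v => (φ v : ℝ≥0∞))
    (show (0 : ℝ) < 2 by norm_num) hp (volume.restrict J)
    (hφ.coe_nnreal_ennreal).aestronglyMeasurable
  unfold eLpNorm' at h2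
  simp only [enorm_eq_self] at h2
  calc (∫⁻ v, ‖(φ v : ℂ) * m v‖ₑ ^ 2) ^ (p / 2)
      ≤ (∫⁻ v in J, (φ v : ℝ≥0∞) ^ (2 : ℝ)) ^ (p / 2) := by gcongr
    _ = ((∫⁻ v in J, (φ v : ℝ≥0∞) ^ (2 : ℝ)) ^ (1 / 2 : ℝ)) ^ p := by
        rw [← ENNReal.rpow_mul]
        congr 1
        ring
    _ ≤ ((∫⁻ v in J, (φ v : ℝ≥0∞) ^ p) ^ (1 / p)) ^ p := by gcongr
    _ = ∫⁻ v in J, (φ v : ℝ≥0∞) ^ p := by
        rw [← ENNReal.rpow_mul, one_div_mul_cancel hp0.ne', ENNReal.rpow_one]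
    _ ≤ _ := setLIntegral_le_lintegral _ _

/-- **Translations.** -/
lemma trans_pos {N : ℕ} (hN : 1 ≤ N) {φ : ℝ → ℝ≥0} {m : ℝ → ℂ} (hφ : Measurable φ)
    (hL : Lvl N φ) (hJ : ∀ v ∉ J, φ v = 0) (hm : Measurable m) (hm1 : ∀ v, ‖m v‖ ≤ 1)
    (hH : HalfD N m) {p : ℝ} (hp : 3 ≤ p) {h : ℝ} (hh : h ∈ Ioc (0 : ℝ) 1) :
    (∫⁻ v, ‖(φ (v + h) : ℂ) * m (v + h) - φ v * m v‖ₑ ^ 2) ^ (p / 2) ≤
      ENNReal.ofReal (5 ^ p * (N * h) ^ (p / 6)) * ∫⁻ v, (φ v : ℝ≥0∞) ^ p := by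
  have hh0 := hh.1
  have hp0 : 0 < p := by linarith
  have hN' : (1 : ℝ) ≤ N := by exact_mod_cast hN
  have hNh : 0 < N * h := by positivity
  rcases le_or_gt 1 (N * h) with hc | hc
  · -- large translations
    have hmc : Measurable fun v => (φ v : ℂ) := by
      have h1 : Measurable fun v => ((φ v : ℝ) : ℂ) := by fun_prop
      exact h1
    have hF : Measurable fun v => ‖(φ v : ℂ) * m v‖ₑ ^ 2 := (hmc.mul hm).enorm.pow_const 2
    have h1 : ∫⁻ v, ‖(φ (v + h) : ℂ) * m (v + h) - φ v * m v‖ₑ ^ 2 ≤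
        4 * ∫⁻ v, ‖(φ v : ℂ) * m v‖ₑ ^ 2 := by
      calc ∫⁻ v, ‖(φ (v + h) : ℂ) * m (v + h) - φ v * m v‖ₑ ^ 2
          ≤ ∫⁻ v, (2 * ‖(φ (v + h) : ℂ) * m (v + h)‖ₑ ^ 2 + 2 * ‖(φ v : ℂ) * m v‖ₑ ^ 2) := by
            apply lintegral_mono
            intro v
            simp only
            obtain ⟨x, hx⟩ : ∃ x : ℂ, x = (φ (v + h) : ℂ) * m (v + h) := ⟨_, rfl⟩
            obtain ⟨y, hy⟩ : ∃ y : ℂ, y = (φ v : ℂ) * m v := ⟨_, rfl⟩
            rw [← hx, ← hy]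
            have e1 : ∀ z : ℂ, ‖z‖ₑ ^ 2 = ENNReal.ofReal (‖z‖ ^ 2) := fun z => by
              rw [← ofReal_norm, ENNReal.ofReal_pow (norm_nonneg _)]
            have e2 : (2 : ℝ≥0∞) = ENNReal.ofReal 2 := by simp
            rw [e1, e1, e1, e2, ← ENNReal.ofReal_mul (by norm_num),
              ← ENNReal.ofReal_mul (by norm_num), ← ENNReal.ofReal_add (by positivity)
              (by positivity)]
            apply ENNReal.ofReal_le_ofReal
            have h2 : ‖x - y‖ ≤ ‖x‖ + ‖y‖ := norm_sub_le _ _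
            have h3 : ‖x - y‖ ^ 2 ≤ (‖x‖ + ‖y‖) ^ 2 := pow_le_pow_left₀ (norm_nonneg _) h2 2
            nlinarith [sq_nonneg (‖x‖ - ‖y‖)]
        _ = 2 * (∫⁻ v, ‖(φ v : ℂ) * m v‖ₑ ^ 2) + 2 * (∫⁻ v, ‖(φ v : ℂ) * m v‖ₑ ^ 2) := by
            have hFh : Measurable fun v => ‖(φ (v + h) : ℂ) * m (v + h)‖ₑ ^ 2 :=
              hF.comp (measurable_id.add_const h)
            rw [lintegral_add_left (hFh.const_mul _), lintegral_const_mul _ hFh,
              lintegral_const_mul _ hF,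
              lintegral_add_right_eq_self (fun v => ‖(φ v : ℂ) * m v‖ₑ ^ 2) h]
        _ = _ := by ring
    have h2 := norm_le hφ hJ hm1 (show 2 ≤ p by linarith)
    calc (∫⁻ v, ‖(φ (v + h) : ℂ) * m (v + h) - φ v * m v‖ₑ ^ 2) ^ (p / 2)
        ≤ (4 * ∫⁻ v, ‖(φ v : ℂ) * m v‖ₑ ^ 2) ^ (p / 2) := by gcongr
      _ = ENNReal.ofReal (4 ^ (p / 2)) * (∫⁻ v, ‖(φ v : ℂ) * m v‖ₑ ^ 2) ^ (p / 2) := by
          rw [ENNReal.mul_rpow_of_nonneg _ _ (by positivity),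
            ← ENNReal.ofReal_rpow_of_nonneg (by norm_num) (by positivity)]
          simp
      _ ≤ _ := by
          gcongr
          have e3 : (4 : ℝ) ^ (p / 2) = 2 ^ p := by
            rw [show (4 : ℝ) = 2 ^ (2 : ℝ) by norm_num, ← Real.rpow_mul (by norm_num)]
            congr 1
            ring
          rw [e3]
          have h4 : (2 : ℝ) ^ p ≤ 5 ^ p := Real.rpow_le_rpow (by norm_num) (by norm_num) hp0.le
          have h5 : (1 : ℝ) ≤ (N * h) ^ (p / 6) := Real.one_le_rpow hc (by positivity)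
          calc (2 : ℝ) ^ p ≤ 5 ^ p * 1 := by linarith
            _ ≤ _ := by gcongr
  · apply le_mul_of_forall ENNReal.ofReal_ne_top
    · rw [ne_eq, ENNReal.ofReal_eq_zero, not_le]
      positivity
    intro L hL0 hPL
    have hL0' : (0 : ℝ) < L := by exact_mod_cast hL0
    obtain ⟨l, hl⟩ : ∃ l : ℝ, l = (L / (N * h)) ^ (1 / p) := ⟨_, rfl⟩
    have hl0 : 0 < l := by rw [hl]; positivity
    have hlp : l ^ p = L / (N * h) := by
      rw [hl, ← Real.rpow_mul (by positivity), one_div_mul_cancel hp0.ne', Real.rpow_one]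
    have key := trans_lam hφ hL hJ hm hm1 hH (show 2 ≤ p by linarith) (lam := l.toNNReal)
      (Real.toNNReal_pos.2 hl0) (h := h) ⟨hh.1.le, hh.2⟩
    rw [Real.coe_toNNReal _ hl0.le] at key
    have e1 : l ^ (2 - p) * L = N * h * l ^ 2 := by
      rw [Real.rpow_sub hl0, hlp]
      norm_cast
      field_simp
    have h1 : ∫⁻ v, ‖(φ (v + h) : ℂ) * m (v + h) - φ v * m v‖ₑ ^ 2 ≤
        ENNReal.ofReal (20 * (N * h * l ^ 2)) := by
      refine key.trans ?_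
      calc _ ≤ ENNReal.ofReal ((8 * N + 4 * N) * h * l ^ 2) +
            ENNReal.ofReal (8 * l ^ (2 - p)) * ENNReal.ofReal L := by
            gcongr
            · simp
            · rw [ENNReal.ofReal_coe_nnreal]
              exact hPL
        _ = _ := by
            rw [← ENNReal.ofReal_mul (by positivity), ← ENNReal.ofReal_add (by positivity)
              (by positivity)]
            congr 1
            rw [mul_assoc 8, e1]
            ring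
    have e2 : (20 * (N * h * l ^ 2)) ^ (p / 2) = 20 ^ (p / 2) * (N * h) ^ (p / 2 - 1) * L := by
      rw [Real.mul_rpow (by norm_num) (by positivity), Real.mul_rpow hNh.le (by positivity),
        ← Real.rpow_natCast l 2, ← Real.rpow_mul hl0.le]
      have e3 : ((2 : ℕ) : ℝ) * (p / 2) = p := by push_cast; ring
      rw [e3, hlp, Real.rpow_sub hNh, Real.rpow_one]
      field_simp
    have e4 : (20 : ℝ) ^ (p / 2) ≤ 5 ^ p := by
      calc (20 : ℝ) ^ (p / 2) ≤ 25 ^ (p / 2) :=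
            Real.rpow_le_rpow (by norm_num) (by norm_num) (by positivity)
        _ = 5 ^ p := by
            rw [show (25 : ℝ) = 5 ^ (2 : ℝ) by norm_num, ← Real.rpow_mul (by norm_num)]
            congr 1
            ring
    have e5 : (N * h) ^ (p / 2 - 1) ≤ (N * h) ^ (p / 6) :=
      Real.rpow_le_rpow_of_exponent_ge hNh hc.le (by linarith)
    calc (∫⁻ v, ‖(φ (v + h) : ℂ) * m (v + h) - φ v * m v‖ₑ ^ 2) ^ (p / 2)
        ≤ (ENNReal.ofReal (20 * (N * h * l ^ 2))) ^ (p / 2) := by gcongr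
      _ = ENNReal.ofReal (20 ^ (p / 2) * (N * h) ^ (p / 2 - 1)) * L := by
          rw [ENNReal.ofReal_rpow_of_nonneg (by positivity) (by positivity), e2,
            ENNReal.ofReal_mul (by positivity), ENNReal.ofReal_coe_nnreal]
      _ ≤ _ := by gcongr

/-- **Translations**, both directions. -/
lemma trans_all {N : ℕ} (hN : 1 ≤ N) {φ : ℝ → ℝ≥0} {m : ℝ → ℂ} (hφ : Measurable φ)
    (hL : Lvl N φ) (hJ : ∀ v ∉ J, φ v = 0) (hm : Measurable m) (hm1 : ∀ v, ‖m v‖ ≤ 1)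
    (hH : HalfD N m) {p : ℝ} (hp : 3 ≤ p) {h : ℝ} (hh0 : h ≠ 0) (hh : |h| ≤ 1) :
    (∫⁻ v, ‖(φ (v + h) : ℂ) * m (v + h) - φ v * m v‖ₑ ^ 2) ^ (p / 2) ≤
      ENNReal.ofReal (5 ^ p * (N * |h|) ^ (p / 6)) * ∫⁻ v, (φ v : ℝ≥0∞) ^ p := by
  rcases lt_or_gt_of_ne hh0 with h1 | h1
  · rw [abs_of_neg h1] at hh ⊢
    have e : ∫⁻ v, ‖(φ (v + h) : ℂ) * m (v + h) - φ v * m v‖ₑ ^ 2 =
        ∫⁻ v, ‖(φ (v + -h) : ℂ) * m (v + -h) - φ v * m v‖ₑ ^ 2 := by
      rw [← lintegral_add_right_eq_self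
        (fun v => ‖(φ (v + h) : ℂ) * m (v + h) - φ v * m v‖ₑ ^ 2) (-h)]
      apply lintegral_congr
      intro v
      rw [neg_add_cancel_right, enorm_sub_rev]
    rw [e]
    exact trans_pos hN hφ hL hJ hm hm1 hH hp ⟨by linarith, hh⟩
  · rw [abs_of_pos h1] at hh ⊢
    exact trans_pos hN hφ hL hJ hm hm1 hH hp ⟨h1, hh⟩

end Pool.Agent.V1178.LI
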